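import Mathlib
import Pool.Agent.X53.Orb.Main

/-!
# MP_fefe6a_co, Q1: real orbital chromatic roots can exceed all real chromatic roots by any amount
-/

namespace Pool.Agent.Results.MP_fefe6a_co.SpreadUnbounded

open Polynomial

/-- The proper vertex colourings of `Γ` with `q` colours. -/
def ProperColouring {V : Type} (Γ : SimpleGraph V) (q : ℕ) : Type :=
  {c : V → Fin q // ∀ u v, Γ.Adj u v → c u ≠ c v}

/-- `P` is the chromatic polynomial of `Γ`: its value at each positive integer `q` is the number of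
proper colourings of `Γ` with `q` colours. -/
def IsChromaticPolynomial {V : Type} (Γ : SimpleGraph V) (P : ℝ[X]) : Prop :=
  ∀ q : ℕ, 0 < q → P.eval (q : ℝ) = Nat.card (ProperColouring Γ q)

/-- `G` is a group of automorphisms of `Γ`. -/
def IsAutomorphismGroup {V : Type} (Γ : SimpleGraph V) (G : Subgroup (Equiv.Perm V)) : Prop :=
  ∀ σ ∈ G, ∀ u v, Γ.Adj (σ u) (σ v) ↔ Γ.Adj u v

/-- Two proper colourings are in the same orbit of `G` (acting by permuting the vertices). -/
def SameOrbit {V : Type} (Γ : SimpleGraph V) (G : Subgroup (Equiv.Perm V)) (q : ℕ)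
    (c c' : ProperColouring Γ q) : Prop :=
  ∃ σ ∈ G, ∀ v, c'.1 v = c.1 (σ v)

/-- `Q` is the orbital chromatic polynomial of `Γ` and `G`: its value at each positive integer `q`
is the number of orbits of `G` on the proper colourings of `Γ` with `q` colours. -/
def IsOrbitalChromaticPolynomial {V : Type} (Γ : SimpleGraph V) (G : Subgroup (Equiv.Perm V))
    (Q : ℝ[X]) : Prop :=
  ∀ q : ℕ, 0 < q → Q.eval (q : ℝ) = Nat.card (Quot (SameOrbit Γ G q))

/-- For every real `N` there are a finite graph `Γ` and a group `G` of automorphisms of `Γ` such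
that the orbital chromatic polynomial of `(Γ, G)` has a real root `r ≥ λ(Γ) + N`, where `λ(Γ)` is
the largest real root of the chromatic polynomial of `Γ`. Moreover `G` can be taken of order 2. -/
theorem result (N : ℝ) :
    ∃ (V : Type) (_ : Finite V) (_ : Nonempty V) (Γ : SimpleGraph V)
      (G : Subgroup (Equiv.Perm V)) (P Q : ℝ[X]) (lam r : ℝ),
      IsAutomorphismGroup Γ G ∧ Nat.card G = 2 ∧
      IsChromaticPolynomial Γ P ∧ IsOrbitalChromaticPolynomial Γ G Q ∧
      IsGreatest {s : ℝ | P.IsRoot s} lam ∧ Q.IsRoot r ∧ lam + N ≤ r := by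
  obtain ⟨n, hn⟩ := exists_nat_ge N
  obtain ⟨m, T, K, I3, lam, r, hm, hgr, hr, hle⟩ := Pool.Agent.X53.Orb.main n
  refine ⟨(Fin m × Bool) ⊕ Pool.Agent.X53.Orb.BT m T K, inferInstance,
    ⟨Sum.inl (⟨0, hm⟩, false)⟩, Pool.Agent.X53.Orb.Gam m T K I3, Pool.Agent.X53.Orb.GG m T K,
    Pool.Agent.X53.Orb.ChP m T K I3, Pool.Agent.X53.Orb.OrP m T K I3, lam, r, ?_, ?_, ?_, ?_,
    hgr, hr, by linarith⟩
  · rintro σ (rfl | rfl) u v
    · exact Iff.rfl
    · exact Pool.Agent.X53.Orb.inv_adj m T K I3 u v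
  · have hne : (1 : Equiv.Perm ((Fin m × Bool) ⊕ Pool.Agent.X53.Orb.BT m T K)) ≠
        Pool.Agent.X53.Orb.inv m T K := by
      intro h
      have h1 := Equiv.congr_fun h (Sum.inl (⟨0, hm⟩, false))
      rw [Pool.Agent.X53.Orb.inv_inl] at h1
      have h2 := Sum.inl.inj h1
      have h3 := congrArg Prod.snd h2
      simp at h3
    have hset : ((Pool.Agent.X53.Orb.GG m T K : Subgroup _) :
        Set (Equiv.Perm ((Fin m × Bool) ⊕ Pool.Agent.X53.Orb.BT m T K))) =
        {1, Pool.Agent.X53.Orb.inv m T K} := rfl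
    have := Set.ncard_pair hne
    rw [← hset] at this
    exact this
  · intro q _
    exact Pool.Agent.X53.Orb.ChP_nat m T K I3 q
  · intro q _
    exact Pool.Agent.X53.Orb.OrP_nat m T K I3 q

end Pool.Agent.Results.MP_fefe6a_co.SpreadUnbounded
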